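import Mathlib
import Pool.Agent.Lib.MP_45349e_nt.Main

/-!
# All even numbers up to an Erdős–Rankin bound are gaps between totatives of a primorial
-/

namespace Pool.Agent.Results.MP_45349e_nt.AllSmallEvenGaps

/-- Let `n` be the product of the first `k` primes, `p` the `k`-th prime and `G` the set of gaps
between consecutive integers in `[1, n)` coprime to `n`. For all large `k` every positive even
`d ≤ c p log p (log log log p) / (log log p)^2` belongs to `G`. -/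
theorem result : ∃ c : ℝ, 0 < c ∧ ∃ K : ℕ, ∀ k : ℕ, K ≤ k →
    ∀ n : ℕ, n = ∏ i ∈ Finset.range k, Nat.nth Nat.Prime i →
    ∀ S : Finset ℕ, S = (Finset.Ico 1 n).filter (fun a => Nat.Coprime a n) →
    ∀ G : Finset ℕ,
      G = ((S ×ˢ S).filter
            (fun p : ℕ × ℕ => p.1 < p.2 ∧ ∀ x ∈ S, ¬ (p.1 < x ∧ x < p.2))).image
            (fun p : ℕ × ℕ => p.2 - p.1) →
    ∀ p : ℝ, p = Nat.nth Nat.Prime (k - 1) →
    ∀ d : ℕ, 0 < d → Even d →
      (d : ℝ) ≤ c * p * Real.log p * Real.log (Real.log (Real.log p)) / (Real.log (Real.log p)) ^ 2 →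
      d ∈ G := by
  obtain ⟨c, hc, K, h⟩ := Pool.Agent.Lib.MP_45349e_nt.main
  refine ⟨c, hc, K, fun k hk n hn S hS G hG p hp d hd0 hde hdle => ?_⟩
  obtain ⟨a, ha1, han, hca, hcd, hbet⟩ := h k hk n hn p hp d hd0 hde hdle
  rw [hG, Finset.mem_image]
  refine ⟨(a, a + d), ?_, by simp⟩
  rw [Finset.mem_filter, Finset.mem_product, hS, Finset.mem_filter, Finset.mem_filter,
    Finset.mem_Ico, Finset.mem_Ico]
  refine ⟨⟨⟨⟨ha1, by omega⟩, hca⟩, ⟨⟨by omega, han⟩, hcd⟩⟩, by omega, ?_⟩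
  rintro x hx ⟨h1, h2⟩
  exact hbet x h1 h2 (Finset.mem_filter.mp hx).2

end Pool.Agent.Results.MP_45349e_nt.AllSmallEvenGaps
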