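import Mathlib
import Pool.Agent.Lib.MP_45349e_nt.AA.Final

/-!
# For almost all `k` every even number up to `(1 - o(1)) min(M(k), k^(1+η))` is a gap
-/

namespace Pool.Agent.Results.MP_45349e_nt.AlmostAllGaps

open Pool.Agent.Lib.MP_45349e_nt.AA

/-- Let `n k` be the product of the first `k` primes, `G k` the set of gaps between consecutive
integers in `[1, n k)` coprime to `n k` and `M k` the largest element of `G k`. There is `η > 0`
such that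

* for all large `k` and all `r ≥ k^(1-η)`: every positive even
  `d ≤ (1 - k^(-η)) min(M k, k^(1+η))` belongs to `G (k + r)`;
* for all large `K`, for all `k ≤ K` outside a set of at most `K^(1-η)` exceptions: every positive
  even `d ≤ (1 - k^(-η)) min(M k, k^(1+η))` belongs to `G k`, and
  `|G k| ≥ (1/2 - k^(-η)) min(M k, k^(1+η))`. -/
theorem result : ∃ η : ℝ, 0 < η ∧
    ∀ n : ℕ → ℕ, (∀ k, n k = ∏ i ∈ Finset.range k, Nat.nth Nat.Prime i) →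
    ∀ S : ℕ → Finset ℕ,
      (∀ k, S k = (Finset.Ico 1 (n k)).filter (fun a => Nat.Coprime a (n k))) →
    ∀ G : ℕ → Finset ℕ,
      (∀ k, G k = ((S k ×ˢ S k).filter
            (fun p : ℕ × ℕ => p.1 < p.2 ∧ ∀ x ∈ S k, ¬ (p.1 < x ∧ x < p.2))).image
            (fun p : ℕ × ℕ => p.2 - p.1)) →
    ∀ M : ℕ → ℕ, (∀ k, M k = (G k).sup id) →
      (∃ K₀ : ℕ, ∀ k : ℕ, K₀ ≤ k → ∀ r : ℕ, (k : ℝ) ^ (1 - η) ≤ r →
        ∀ d : ℕ, 0 < d → Even d →
          (d : ℝ) ≤ (1 - (k : ℝ) ^ (-η)) * min (M k : ℝ) ((k : ℝ) ^ (1 + η)) →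
          d ∈ G (k + r)) ∧
      (∃ K₀ : ℕ, ∀ K : ℕ, K₀ ≤ K → ∃ E : Finset ℕ, (E.card : ℝ) ≤ (K : ℝ) ^ (1 - η) ∧
        ∀ k : ℕ, 1 ≤ k → k ≤ K → k ∉ E →
          (∀ d : ℕ, 0 < d → Even d →
            (d : ℝ) ≤ (1 - (k : ℝ) ^ (-η)) * min (M k : ℝ) ((k : ℝ) ^ (1 + η)) → d ∈ G k) ∧
          (1 / 2 - (k : ℝ) ^ (-η)) * min (M k : ℝ) ((k : ℝ) ^ (1 + η)) ≤ ((G k).card : ℝ)) := by
  classical
  obtain ⟨η, hη0, ⟨k₀, h1⟩, K₀, h2⟩ := main
  refine ⟨η, hη0, ?_⟩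
  intro n hn S hS G hG M hM
  have hGg : ∀ k, G k = gaps k := by
    intro k
    rw [hG k, hS k, hn k]
    rfl
  have hMg : ∀ k, M k = (gaps k).sup id := by
    intro k
    rw [hM k, hGg k]
  refine ⟨⟨k₀, ?_⟩, ⟨K₀, ?_⟩⟩
  · intro k hk r hr d hd0 hd2 hd
    rw [hGg]
    rw [hMg] at hd
    exact h1 k hk r hr d hd0 hd2 hd
  · intro K hK
    refine ⟨(Finset.Icc 1 K).filter (fun k => ¬ Good η k), ?_, ?_⟩
    · refine h2 K hK _ ?_
      intro k hk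
      rw [Finset.mem_filter, Finset.mem_Icc] at hk
      exact ⟨hk.1.1, hk.1.2, hk.2⟩
    · intro k hk1 hkK hkE
      have hgood : Good η k := by
        by_contra hcon
        exact hkE (Finset.mem_filter.mpr ⟨Finset.mem_Icc.mpr ⟨hk1, hkK⟩, hcon⟩)
      rw [hGg, hMg]
      exact hgood

end Pool.Agent.Results.MP_45349e_nt.AlmostAllGaps
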