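import Mathlib
import Pool.Agent.Lib.MP_45349e_nt.LS.Fin2
import Pool.Agent.Lib.MP_45349e_nt.JG.M27
import Pool.Agent.Lib.MP_45349e_nt.JG.Q05

/-!
# `|G(k)| ≥ c M(k)` for all `k` outside a set of small density
-/

namespace Pool.Agent.Results.MP_45349e_nt.AlmostAllK

open Pool.Agent.Lib.MP_45349e_nt.AA
open Pool.Agent.Lib.MP_45349e_nt.LS
open Pool.Agent.Lib.MP_45349e_nt.JG

open Classical in
/-- Let `n k` be the product of the first `k` primes, `G k` the set of gaps between consecutive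
integers in `[1, n k)` coprime to `n k` and `M k` the largest element of `G k`.

* For every `θ > 0` there is `c > 0` such that for all large `k` and all `r ≥ θ k`:
  `|G (k + r)| ≥ c M(k)`.
* There is `C > 0` such that for every `c > 0` and all large `K`, all but at most `C c^(1/4) K` of
  the `k ∈ [1, K]` satisfy `|G k| ≥ c M(k)`.
* There are `C, c₁ > 0` such that for every `c ∈ (0, c₁]`, every `η > 0` and all large `K`, all but
  at most `C (c η)^(1/4) K` of the `k ∈ [1, K]` with `M(k) ≤ η (k log k)^2` satisfy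
  `|G k| ≥ c M(k)`.
* For every `δ > 0` there is `c > 0` such that for all large `k`, with `m = min(M k, k^2)`, and all
  `r ≥ m^(1/2) k^δ`: `|G (k + r)| ≥ c m`.
* For every `δ > 0` there is `c > 0` such that for all large `K` and all `α ∈ [1, 2]`, all but at
  most `K^(α/2+δ)` of the `k ∈ [1, K]` satisfy `|G k| ≥ c min(M k, k^α)`.
* For every `ε > 0` there is `h > 0` such that for all large `K`, all but at most `K^(1-h)` of the
  `k ∈ [1, K]` satisfy `|G k| ≥ (M k)^(1-ε)`. -/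
theorem result :
    ∀ n : ℕ → ℕ, (∀ k, n k = ∏ i ∈ Finset.range k, Nat.nth Nat.Prime i) →
    ∀ S : ℕ → Finset ℕ,
      (∀ k, S k = (Finset.Ico 1 (n k)).filter (fun a => Nat.Coprime a (n k))) →
    ∀ G : ℕ → Finset ℕ,
      (∀ k, G k = ((S k ×ˢ S k).filter
            (fun p : ℕ × ℕ => p.1 < p.2 ∧ ∀ x ∈ S k, ¬ (p.1 < x ∧ x < p.2))).image
            (fun p : ℕ × ℕ => p.2 - p.1)) →
    ∀ M : ℕ → ℕ, (∀ k, M k = (G k).sup id) →
      (∀ θ : ℝ, 0 < θ → ∃ c : ℝ, 0 < c ∧ ∃ K₀ : ℕ, ∀ k : ℕ, K₀ ≤ k → ∀ r : ℕ,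
        θ * k ≤ r → c * (M k : ℝ) ≤ ((G (k + r)).card : ℝ)) ∧
      (∃ C : ℝ, 0 < C ∧ ∀ c : ℝ, 0 < c → ∃ K₀ : ℕ, ∀ K : ℕ, K₀ ≤ K →
        (((Finset.Icc 1 K).filter (fun k : ℕ =>
          ((G k).card : ℝ) < c * (M k : ℝ))).card : ℝ) ≤ C * c ^ (1 / 4 : ℝ) * K) ∧
      (∃ C c₁ : ℝ, 0 < C ∧ 0 < c₁ ∧ ∀ c η : ℝ, 0 < c → c ≤ c₁ → 0 < η → ∃ K₀ : ℕ, ∀ K : ℕ,
        K₀ ≤ K → (((Finset.Icc 1 K).filter (fun k : ℕ =>
          (M k : ℝ) ≤ η * (k * Real.log k) ^ 2 ∧ ((G k).card : ℝ) < c * (M k : ℝ))).card : ℝ) ≤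
            C * (c * η) ^ (1 / 4 : ℝ) * K) ∧
      (∀ δ : ℝ, 0 < δ → ∃ c : ℝ, 0 < c ∧ ∃ K₀ : ℕ, ∀ k : ℕ, K₀ ≤ k → ∀ r : ℕ,
        (min (M k : ℝ) ((k : ℝ) ^ 2)) ^ (1 / 2 : ℝ) * (k : ℝ) ^ δ ≤ r →
        c * min (M k : ℝ) ((k : ℝ) ^ 2) ≤ ((G (k + r)).card : ℝ)) ∧
      (∀ δ : ℝ, 0 < δ → ∃ c : ℝ, 0 < c ∧ ∃ K₀ : ℕ, ∀ K : ℕ, K₀ ≤ K → ∀ α : ℝ, 1 ≤ α → α ≤ 2 →
        (((Finset.Icc 1 K).filter (fun k : ℕ =>
          ((G k).card : ℝ) < c * min (M k : ℝ) ((k : ℝ) ^ α))).card : ℝ) ≤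
          (K : ℝ) ^ (α / 2 + δ)) ∧
      (∀ ε : ℝ, 0 < ε → ∃ h : ℝ, 0 < h ∧ ∃ K₀ : ℕ, ∀ K : ℕ, K₀ ≤ K →
        (((Finset.Icc 1 K).filter (fun k : ℕ =>
          ((G k).card : ℝ) < (M k : ℝ) ^ (1 - ε))).card : ℝ) ≤ (K : ℝ) ^ (1 - h)) := by
  intro n hn S hS G hG M hM
  have hGg : G = gaps := by
    funext k
    rw [hG k, hS k, hn k]
    unfold gaps tot pml
    ext d
    simp only [Finset.mem_image, Finset.mem_filter]
  have hMg : M = Mg := by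
    funext k
    rw [hM k, hGg]
    rfl
  rw [hGg, hMg]
  have hle : ∀ k : ℕ, (Mg k : ℝ) ≤ (Jf k : ℝ) := by
    intro k
    exact_mod_cast sup_gaps_le k
  have heq : ∀ k : ℕ, 2 ≤ k → Mg k = Jf k := by
    intro k hk
    refine le_antisymm (sup_gaps_le k) ?_
    exact Finset.le_sup (f := id) (Jf_mem_gaps hk)
  refine ⟨?_, ?_, ?_, fun δ hδ => finA linSieve δ hδ, fun δ hδ => finB linSieve δ hδ,
    fun ε hε => finC linSieve ε hε⟩
  · intro θ hθ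
    obtain ⟨c, k0, hc, h⟩ := finA2 thmS θ hθ
    exact ⟨c, hc, k0, fun k hk r hr =>
      (mul_le_mul_of_nonneg_left (hle k) hc.le).trans (h k hk r hr)⟩
  · obtain ⟨C, hC, h⟩ := finB2 thmS
    refine ⟨C, hC, fun c hc => ?_⟩
    obtain ⟨K0, h1⟩ := h c hc
    refine ⟨K0, fun K hK => le_trans ?_ (h1 K hK)⟩
    refine Nat.cast_le.mpr (Finset.card_le_card ?_)
    intro k hk
    rw [Finset.mem_filter] at hk ⊢
    exact ⟨hk.1, lt_of_lt_of_le hk.2 (mul_le_mul_of_nonneg_left (hle k) hc.le)⟩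
  · obtain ⟨C, cs, hC, hcs, h⟩ := finB3 thmS
    refine ⟨C, cs, hC, hcs, fun c η hc hc1 hη => ?_⟩
    obtain ⟨K0, h1⟩ := h c η hc hc1 hη
    refine ⟨K0, fun K hK => le_trans ?_ (h1 K hK)⟩
    refine Nat.cast_le.mpr (Finset.card_le_card ?_)
    intro k hk
    rw [Finset.mem_filter, Finset.mem_Icc] at hk
    rw [Finset.mem_filter, Finset.mem_Icc]
    obtain ⟨h2, h3, h4⟩ := hk
    by_cases hk1 : k = 1
    · exfalso
      have h5 : Mg 1 = 0 := by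
        have h6 : gaps 1 = ∅ := by
          rw [Finset.eq_empty_iff_forall_notMem]
          intro d hd
          rw [mem_gaps] at hd
          obtain ⟨h7, a, h8, h9, -⟩ := hd
          have h10 : pml 1 = 2 := by
            unfold pml
            rw [Finset.prod_range_one, Nat.nth_prime_zero_eq_two]
          omega
        unfold Mg
        rw [h6]
        rfl
      rw [hk1, h5] at h4
      have h7 : (0 : ℝ) ≤ ((gaps 1).card : ℝ) := Nat.cast_nonneg _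
      push_cast at h4
      linarith
    · have h5 := heq k (by omega)
      rw [h5] at h3 h4
      exact ⟨h2, h3, h4⟩

end Pool.Agent.Results.MP_45349e_nt.AlmostAllK
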